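import Mathlib
import Pool.Agent.Q51.HG.Ent
import Pool.Agent.Q51.HG.Smooth

set_option autoImplicit false

/-!
# General hypersurfaces of degree at least `2 n + 2` and entire curves given by few high powers

Kobayashi's conjecture (MP_b509a1_ag, Q1) says that a general hypersurface `X` of degree
`d ≥ 2 n + 2` in `P^(n+1)` contains no nonconstant entire curve. We prove this, in the whole range
`d ≥ 2 n + 2` and for all hypersurfaces in a nonempty Zariski-open set (the complement of the zeros of
a nonzero polynomial `h` with integral coefficients in the coefficients of the form), for the entire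
curves with homogeneous coordinates

  `f i = ∑ j, c j i * g j`,  `j < r`,

where the `c j i` are arbitrary complex numbers and the `g j` are entire functions, each of them without
zeros or the `m`-th power of an entire function, `m ≥ C(r + d - 1, d) ^ 2`. The Zariski-open set depends
only on `n`, `d` and `r`, and the hypersurfaces in it are smooth. The coordinates `f i` may have common
zeros. For `r = n + 2` this includes all entire curves in `X` that omit any `n + 2` hyperplanes without
a common point, or are of the form `ℓ j (f) = (g j) ^ m` for any `n + 2` linearly independent linear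
forms `ℓ j`.
-/

namespace Pool.Agent.Results.MP_b509a1_ag.SumsOfHighPowers

open MvPolynomial

/-- The indices of the coefficients of the forms of degree `d` in `n + 2` variables. -/
abbrev Index (n d : ℕ) : Type := {α : Fin (n + 2) →₀ ℕ // α.degree = d}

/-- The value of the polynomial `h` at the coefficients of the form `F`. -/
noncomputable def valueAt {n d : ℕ} (h : MvPolynomial (Index n d) ℤ)
    (F : MvPolynomial (Fin (n + 2)) ℂ) : ℂ :=
  aeval (fun α : Index n d => coeff α.1 F) h

/-- The hypersurface `F = 0` in the projective space is smooth. -/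
def Smooth {n : ℕ} (F : MvPolynomial (Fin (n + 2)) ℂ) : Prop :=
  ∀ x : Fin (n + 2) → ℂ, x ≠ 0 → eval x F = 0 → ∃ k, eval x (pderiv k F) ≠ 0

/-- `f` is a vector of homogeneous coordinates, perhaps with common zeros, of a holomorphic map from
the complex plane to the hypersurface `F = 0`. -/
structure EntireCurve {n : ℕ} (F : MvPolynomial (Fin (n + 2)) ℂ) (f : ℂ → Fin (n + 2) → ℂ) :
    Prop where
  hol : ∀ i, Differentiable ℂ fun z => f z i
  ne : ∃ z, f z ≠ 0
  mem : ∀ z, eval (f z) F = 0

/-- The map to the projective space is constant. -/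
def Constant {n : ℕ} (f : ℂ → Fin (n + 2) → ℂ) : Prop :=
  ∀ z w i k, f z i * f w k = f z k * f w i

/-- The coordinates are linear combinations of `r` entire functions, each of which has no zeros or is
the `m`-th power of an entire function. -/
def SumOfPowers {n : ℕ} (r m : ℕ) (f : ℂ → Fin (n + 2) → ℂ) : Prop :=
  ∃ (c : Fin r → Fin (n + 2) → ℂ) (g : Fin r → ℂ → ℂ),
    (∀ j, Differentiable ℂ (g j) ∧
      ((∀ z, g j z ≠ 0) ∨ ∃ p : ℂ → ℂ, Differentiable ℂ p ∧ ∀ z, g j z = p z ^ m)) ∧
    ∀ z i, f z i = ∑ j, c j i * g j z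

theorem result (n d r : ℕ) (hd : 2 * n + 2 ≤ d) :
    ∃ h : MvPolynomial (Index n d) ℤ, h ≠ 0 ∧
      ∀ F : MvPolynomial (Fin (n + 2)) ℂ, F.IsHomogeneous d → valueAt h F ≠ 0 →
        Smooth F ∧ ∀ m, (r + d - 1).choose d ^ 2 ≤ m →
          ∀ f, EntireCurve F f → SumOfPowers r m f → Constant f := by
  classical
  obtain ⟨h1, h10, h1s⟩ := Pool.Agent.Q51.HG.gen_sparse (N := n + 1) (fun _ : Fin 1 => d)
    Finset.univ (by simp; omega) r
  obtain ⟨h2, h20, h2s⟩ := Pool.Agent.Q51.HG.gen_smooth (N := n + 1) (fun _ : Fin 1 => d) 0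
    (show 0 < d by omega)
  let e : Pool.Agent.TH182.VD.CI (n + 1) (fun _ : Fin 1 => d) → Index n d := fun x => ⟨x.2.1, x.2.2⟩
  have hinj : Function.Injective e := by
    rintro ⟨i, α, hα⟩ ⟨i', α', hα'⟩ hh
    have hi : i = i' := Subsingleton.elim _ _
    subst hi
    have : α = α' := congrArg Subtype.val hh
    subst this
    rfl
  refine ⟨rename e (h1 * h2), ?_, ?_⟩
  · intro h0
    exact mul_ne_zero h10 h20 (rename_injective e hinj (by rw [h0, map_zero]))
  intro F hF hv
  have hval : ∀ h, valueAt (rename e h) F = Pool.Agent.Q51.HG.sp (fun _ : Fin 1 => d)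
      (fun _ : Fin 1 => F) h := by
    intro h
    unfold valueAt Pool.Agent.Q51.HG.sp
    rw [aeval_rename]
    rfl
  rw [hval, map_mul] at hv
  refine ⟨?_, ?_⟩
  · intro x hx _
    by_contra hcon
    push Not at hcon
    exact hx (h2s ℂ (fun _ => F) (fun _ => hF) (right_ne_zero_of_mul hv) x hcon)
  · rintro m hm f ⟨-, hf0, hfF⟩ ⟨c, g, hg, hfc⟩
    have hr : 0 < r := by
      rcases Nat.eq_zero_or_pos r with h | h
      · exfalso
        subst h
        obtain ⟨z, hz⟩ := hf0
        apply hz
        funext i
        rw [hfc]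
        simp
      · exact h
    have hm0 : 0 < m := by
      refine lt_of_lt_of_le ?_ hm
      exact pow_pos (Nat.choose_pos (by omega)) 2
    have hroot : ∀ j, ∃ p : ℂ → ℂ, Differentiable ℂ p ∧ ∀ z, g j z = p z ^ m := by
      intro j
      obtain ⟨h3, h4 | h4⟩ := hg j
      · obtain ⟨p, hp, hp2⟩ := Pool.Agent.H159R3.Toric.root (g j) h3 h4 hm0
        exact ⟨p, hp, fun z => (hp2 z).symm⟩
      · exact h4
    choose p hp hgp using hroot
    have hfp : ∀ z, f z = Pool.Agent.Q51.HG.pcv c p m z := by
      intro z
      funext i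
      rw [hfc]
      unfold Pool.Agent.Q51.HG.pcv
      exact Finset.sum_congr rfl fun j _ => by rw [hgp]
    have key := Pool.Agent.Q51.HG.no_entire (fun _ : Fin 1 => d) Finset.univ (fun _ => F)
      (fun _ => hF) (h1s ℂ (fun _ => F) (fun _ => hF) (left_ne_zero_of_mul hv)) hm0 (fun _ => hm)
      c p hp (by
        obtain ⟨z, hz⟩ := hf0
        exact ⟨z, by rwa [← hfp]⟩) (fun _ _ z => by rw [← hfp]; exact hfF z)
      (fun i hi => absurd (Finset.mem_univ i) hi)
    intro z w i k
    rw [hfp, hfp]
    exact key z w i k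

end Pool.Agent.Results.MP_b509a1_ag.SumsOfHighPowers
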