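import Pool.Agent.Q161.KgB

/-!
# General hypersurfaces of degree at least `2 n + 2`: orbifold Kobayashi hyperbolicity with respect to
# all systems of `n + 2` hyperplanes

Kobayashi's conjecture (MP_b509a1_ag, Q1) says that a general hypersurface `X` of degree `d ≥ 2 n + 2`
in `P^(n+1)` is Kobayashi hyperbolic. We prove, in the whole range `d ≥ 2 n + 2`, and for all `X` in a
nonempty Zariski-open set that depends only on `n` and `d`, that the orbifold pairs

  `(X, (1 - 1/m) (H_0 + ... + H_(n+1)))`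

are Kobayashi hyperbolic for ALL systems of `n + 2` hyperplanes `H_i` of `P^(n+1)` without a common
point, where `m` depends only on `n` and `d`: the discs in `X` that meet the `H_i` only with
multiplicities at least `m` (or lie in them) define a distance. All nonconstant entire curves in `X`
(no condition) satisfy the inequality `ε T(r) ≤ N(r)` with truncation level one, `ε` depending only on
`n` and `d`, and all Fermat coverings of `X` of exponents `k ≥ m`, ramified over the `H_i`, are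
Kobayashi hyperbolic.
-/

set_option autoImplicit false

namespace Pool.Agent.Results.MP_b509a1_ag.OrbifoldHyperbolicity

open MvPolynomial Metric
open Pool.Agent.Q72.OK (Hyperbolic)
open scoped LinearAlgebra.Projectivization

/-- The indices of the coefficients of the forms of degree `d` in `n + 2` variables. -/
abbrev Index (n d : ℕ) : Type := {α : Fin (n + 2) →₀ ℕ // α.degree = d}

/-- The value of the polynomial `h` at the coefficients of the form `F`. -/
noncomputable def valueAt {n d : ℕ} (h : MvPolynomial (Index n d) ℤ)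
    (F : MvPolynomial (Fin (n + 2)) ℂ) : ℂ :=
  aeval (fun α : Index n d => coeff α.1 F) h

/-- The hypersurface `F = 0` in the projective space is smooth. -/
def Smooth {n : ℕ} (F : MvPolynomial (Fin (n + 2)) ℂ) : Prop :=
  ∀ x : Fin (n + 2) → ℂ, x ≠ 0 → eval x F = 0 → ∃ k, eval x (pderiv k F) ≠ 0

/-- `n + 2` linearly independent linear forms `ℓ i` in `n + 2` variables, that is, a system of
`n + 2` hyperplanes `ℓ i = 0` in `P^(n+1)` without a common point. -/
abbrev Hyperplanes (n : ℕ) : Type := (Fin (n + 2) → ℂ) ≃ₗ[ℂ] (Fin (n + 2) → ℂ)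

/-- The complex points of the hypersurface `F = 0`. -/
def points {n : ℕ} (F : MvPolynomial (Fin (n + 2)) ℂ) : Set (ℙ ℂ (Fin (n + 2) → ℂ)) :=
  {p | eval p.rep F = 0}

/-- The Fermat covering `{(y_0 : ... : y_(n+1)) : ℓ⁻¹ (y_0 ^ k, ..., y_(n+1) ^ k) ∈ X}` of the
hypersurface `X : F = 0`, ramified over the hyperplanes `ℓ i = 0`. -/
def FermatCover {n : ℕ} (F : MvPolynomial (Fin (n + 2)) ℂ) (k : ℕ) (ℓ : Hyperplanes n) :
    Set (ℙ ℂ (Fin (n + 2) → ℂ)) :=
  {p | eval (ℓ.symm fun i => p.rep i ^ k) F = 0}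

/-- `f` gives homogeneous coordinates without common zeros of a nonconstant entire curve in the
hypersurface `F = 0`. -/
def Curve {n : ℕ} (F : MvPolynomial (Fin (n + 2)) ℂ) (f : ℂ → Fin (n + 2) → ℂ) : Prop :=
  Differentiable ℂ f ∧ (∀ z, f z ≠ 0) ∧ (∀ z, eval (f z) F = 0) ∧ ∃ z w, ∀ c : ℂ, f z ≠ c • f w

/-- The characteristic function of an entire curve: the mean of `log |f|` on the circle `|z| = r`
minus `log |f(0)|`. -/
noncomputable def charT {n : ℕ} (f : ℂ → Fin (n + 2) → ℂ) (r : ℝ) : ℝ :=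
  Real.circleAverage (fun z => Real.log ‖f z‖) 0 r - Real.log ‖f 0‖

/-- The point `x` is mapped to one of the hyperplanes that do not contain the curve. -/
def Meets {n : ℕ} (ℓ : Hyperplanes n) (f : ℂ → Fin (n + 2) → ℂ) (x : ℂ) : Prop :=
  ∃ i, (∃ y, ℓ (f y) i ≠ 0) ∧ ℓ (f x) i = 0

/-- The weight of the point `x` in the counting function: `log (r / |x|)` if `0 < |x| ≤ r`. -/
noncomputable def weight (r : ℝ) (x : ℂ) : ℝ :=
  if x = 0 then Real.log r else if ‖x‖ ≤ r then Real.log (r / ‖x‖) else 0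

/-- The counting function of the intersections with the hyperplanes, each point counted once. -/
noncomputable def countN {n : ℕ} (ℓ : Hyperplanes n) (f : ℂ → Fin (n + 2) → ℂ) (r : ℝ) : ℝ :=
  ∑ᶠ (x : ℂ) (_ : Meets ℓ f x), weight r x

/-- The inequality `ε T(r) ≤ N(r)` for all `r > 0` outside of a set of finite measure. -/
def Inequality {n : ℕ} (ε : ℝ) (ℓ : Hyperplanes n) (f : ℂ → Fin (n + 2) → ℂ) : Prop :=
  ∃ E : Set ℝ, MeasureTheory.volume E < ⊤ ∧ ∀ r, 0 < r → r ∉ E → ε * charT f r ≤ countN ℓ f r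

/-- The curve meets one of the hyperplanes that do not contain it with a multiplicity less than
`m`. -/
def LowMultiplicity {n : ℕ} (m : ℕ) (ℓ : Hyperplanes n) (f : ℂ → Fin (n + 2) → ℂ) : Prop :=
  ∃ i x, (∃ y, ℓ (f y) i ≠ 0) ∧ ℓ (f x) i = 0 ∧
    analyticOrderAt (fun z => ℓ (f z) i) x < (m : ℕ∞)

/-- For all `n` and `d ≥ 2 n + 2` there are `ε > 0`, `m` and a nonzero polynomial `h` with integral
coefficients in the coefficients of the forms of degree `d` in `n + 2` variables such that the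
following is true for every complex form `F` with `h(F) ≠ 0` and ALL systems of `n + 2` hyperplanes
`ℓ i = 0` in `P^(n+1)` without common point. The hypersurface `X : F = 0` is smooth. (1) Every
nonconstant entire curve in `X` satisfies `ε T(r) ≤ N(r)` for all `r > 0` outside of a set of finite
measure, where `N` counts the intersections with the hyperplanes that do not contain the curve, each
point once, and one of the multiplicities of these intersections is less than `m`. (2) The orbifold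
pair `(X, (1 - 1/m) ∑ (ℓ i = 0))` is Kobayashi hyperbolic. (3) The Fermat coverings of `X` of all
exponents `k ≥ m`, `k > 0`, ramified over the hyperplanes, are Kobayashi hyperbolic. -/
theorem result (n d : ℕ) (hd : 2 * n + 2 ≤ d) :
    ∃ (ε : ℝ) (m : ℕ) (h : MvPolynomial (Index n d) ℤ), 0 < ε ∧ h ≠ 0 ∧
      ∀ F : MvPolynomial (Fin (n + 2)) ℂ, F.IsHomogeneous d → valueAt h F ≠ 0 →
        Smooth F ∧ ∀ ℓ : Hyperplanes n,
          (∀ f, Curve F f → Inequality ε ℓ f ∧ LowMultiplicity m ℓ f) ∧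
          Hyperbolic m ℓ (points F) ∧
          ∀ k, m ≤ k → 0 < k → Hyperbolic 1 (LinearEquiv.refl ℂ _) (FermatCover F k ℓ) := by
  classical
  have hsum : 2 * (n + 1) + 1 ≤ ∑ i : Fin 1, (fun _ => d) i +
      (Finset.univ : Finset (Fin 1)).card := by
    simp
    omega
  obtain ⟨h1, h10, h1s⟩ := Pool.Agent.Q51.HG.gen_sparse (N := n + 1) (fun _ : Fin 1 => d)
    Finset.univ hsum (n + 2)
  obtain ⟨h2, h20, h2s⟩ := Pool.Agent.Q51.HG.gen_smooth (N := n + 1) (fun _ : Fin 1 => d) 0
    (show 0 < d by omega)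
  obtain ⟨ε, B, m, hε, hmain⟩ := Pool.Agent.Q72.OK.tfae_hyp (n + 1) d
  let e : Pool.Agent.TH182.VD.CI (n + 1) (fun _ : Fin 1 => d) → Index n d := fun x => ⟨x.2.1, x.2.2⟩
  have hinj : Function.Injective e := by
    rintro ⟨i, α, hα⟩ ⟨i', α', hα'⟩ hh
    have hi : i = i' := Subsingleton.elim _ _
    subst hi
    have : α = α' := congrArg Subtype.val hh
    subst this
    rfl
  refine ⟨ε, m, rename e (h1 * h2), hε, ?_, ?_⟩
  · intro h0
    exact mul_ne_zero h10 h20 (rename_injective e hinj (by rw [h0, map_zero]))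
  intro F hF hv
  have hval : ∀ h, valueAt (rename e h) F = Pool.Agent.Q51.HG.sp (fun _ : Fin 1 => d)
      (fun _ : Fin 1 => F) h := by
    intro h
    unfold valueAt Pool.Agent.Q51.HG.sp
    rw [aeval_rename]
    rfl
  rw [hval, map_mul] at hv
  have hno : Pool.Agent.Q72.GH.NoSparse (fun _ : Fin 1 => F) Finset.univ (n + 1 + 1) :=
    h1s ℂ (fun _ => F) (fun _ => hF) (left_ne_zero_of_mul hv)
  set E : Set (MvPolynomial (Fin (n + 1 + 1)) ℂ) := Set.range fun _ : Fin 1 => F with hE
  have hEF : ∀ G ∈ E, G = F := by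
    rintro _ ⟨_, rfl⟩
    rfl
  have hFE : F ∈ E := ⟨0, rfl⟩
  have hEd : ∀ G ∈ E, ∃ e ≤ d, G.IsHomogeneous e := fun G hG => by
    rw [hEF G hG]
    exact ⟨d, le_rfl, hF⟩
  have hEh : ∀ G ∈ E, ∃ e, G.IsHomogeneous e := fun G hG => by
    rw [hEF G hG]
    exact ⟨d, hF⟩
  refine ⟨?_, fun ℓ => ?_⟩
  · intro x hx _
    by_contra hcon
    push Not at hcon
    exact hx (h2s ℂ (fun _ => F) (fun _ => hF) (right_ne_zero_of_mul hv) x hcon)
  have ht := hmain E hEd ℓ B le_rfl
  have hm1 := Pool.Agent.Q161.Kg.mono_iff'.2 (Pool.Agent.Q161.Kg.no_mono (fun _ : Fin 1 => F) hno B ℓ)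
  have hB2 := (ht.out 0 1).1 hm1
  have hB3 := (ht.out 0 2).1 hm1
  have hB4 := (ht.out 0 3).1 hm1
  have hcur : ∀ f, Curve F f → Pool.Agent.Q72.TR.Cur E 1 f := by
    rintro f ⟨a1, a2, a3, a4⟩
    exact ⟨a1, a2, fun z G hG => by rw [hEF G hG]; exact a3 z,
      ⟨0, by rw [map_one]; exact one_ne_zero⟩, a4⟩
  have hone : ∀ x : Fin (n + 1 + 1) → ℂ, ¬ eval x (1 : MvPolynomial (Fin (n + 1 + 1)) ℂ) = 0 :=
    fun x h0 => one_ne_zero (by rwa [map_one] at h0)
  refine ⟨fun f hf => ⟨?_, ?_⟩, ?_, fun k hk hk0 => ?_⟩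
  · obtain ⟨X, hX, h⟩ := hB2 f (hcur f hf)
    refine ⟨X, hX, fun r hr hrX => ?_⟩
    have h3 := h r hr hrX
    have h4 : Pool.Agent.Q72.TR.Pts (ℓ : (Fin (n + 1 + 1) → ℂ) →ₗ[ℂ] (Fin (n + 1 + 1) → ℂ)) 1 f =
        {x | Meets ℓ f x} := by
      ext x
      constructor
      · rintro (h5 | h5)
        · exact h5
        · exact absurd h5 (hone _)
      · exact fun h5 => Or.inl h5
    unfold Pool.Agent.Q72.TR.CountN at h3
    rw [h4] at h3
    exact h3
  · have h3 := hB3 f (hcur f hf)
    by_contra hcon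
    apply h3
    refine ⟨fun i x h4 h5 => ?_, fun x h4 => absurd h4 (hone _)⟩
    by_contra h6
    exact hcon ⟨i, x, h4, h5, not_le.1 h6⟩
  · have h3 : Pool.Agent.Q72.OK.zeroSet E = points F := by
      ext p
      exact ⟨fun h => h F hFE, fun h G hG => by rw [hEF G hG]; exact h⟩
    rw [← h3]
    exact hB4
  · have h3 : Pool.Agent.Q161.Kg.FermatCover E k ℓ = FermatCover F k ℓ := by
      ext p
      exact ⟨fun h => h F hFE, fun h G hG => by rw [hEF G hG]; exact h⟩
    rw [← h3]
    refine Pool.Agent.Q161.Kg.cover_hyp hEh hk hk0 fun f hf => ?_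
    exact hB3 f (Pool.Agent.Q161.Kg.curve_iff.1 hf)

end Pool.Agent.Results.MP_b509a1_ag.OrbifoldHyperbolicity
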