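import Mathlib
import Pool.Agent.Q72.GH.Very
import Pool.Agent.Q51.HG.Smooth

set_option autoImplicit false

/-!
# General hypersurfaces of degree at least `2 n + 2` and the hyperplane sections of entire curves

Kobayashi's conjecture (MP_b509a1_ag, Q1) says that a general hypersurface `X` of degree
`d ≥ 2 n + 2` in `P^(n+1)` contains no nonconstant entire curve. We consider all nonconstant entire
curves in the hypersurfaces of a nonempty Zariski-open set (the complement of the zeros of a nonzero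
polynomial with integral coefficients in the coefficients of the form), in the whole range
`d ≥ 2 n + 2`, together with arbitrary systems of `k + 1` hyperplanes `ℓ i = 0` of `P^(n+1)` without
a common point. The sections of an entire curve are its intersections, with multiplicities, with
these hyperplanes. We prove:

* among any `M + 1` nonconstant entire curves in `X` with the same sections two differ by a diagonal
  matrix in the coordinates `ℓ i`, where `M` depends on `n`, `d` and `k` only;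
* if `k ≥ n + 2` and any `n + 2` of the `ℓ i` are linearly independent, then among any `M + 1` entire
  curves in `X` which have the same sections and are not contained in hyperplanes two are equal;
* every nonconstant entire curve `f` in `X` is rigid: only finitely many entire curves in `X` have
  the same sections and the same Zariski closure as `f`; every nonconstant entire function `h` for
  which `f ∘ h` has the same sections as `f` is `a z + b` with a root of unity `a`; and if the
  translation by `b` leaves the sections invariant then a multiple `m b`, `m > 0`, is a period;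
* if `X` is very general and the homogeneous coordinates of `f` are of exponential type, then no
  translation other than the identity leaves the sections of `f` invariant.
-/

namespace Pool.Agent.Results.MP_b509a1_ag.SharedHyperplaneSections

open MvPolynomial

/-- The indices of the coefficients of the forms of degree `d` in `n + 2` variables. -/
abbrev Index (n d : ℕ) : Type := {α : Fin (n + 2) →₀ ℕ // α.degree = d}

/-- The value of the polynomial `h` at the coefficients of the form `F`. -/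
noncomputable def valueAt {n d : ℕ} (h : MvPolynomial (Index n d) ℤ)
    (F : MvPolynomial (Fin (n + 2)) ℂ) : ℂ :=
  aeval (fun α : Index n d => coeff α.1 F) h

/-- The hypersurface `F = 0` in the projective space is smooth. -/
def Smooth {n : ℕ} (F : MvPolynomial (Fin (n + 2)) ℂ) : Prop :=
  ∀ x : Fin (n + 2) → ℂ, x ≠ 0 → eval x F = 0 → ∃ k, eval x (pderiv k F) ≠ 0

/-- `f` is a vector of homogeneous coordinates without common zeros of a nonconstant holomorphic map
from the complex plane to the hypersurface `F = 0`. -/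
def Curve {n : ℕ} (F : MvPolynomial (Fin (n + 2)) ℂ) (f : ℂ → Fin (n + 2) → ℂ) : Prop :=
  Differentiable ℂ f ∧ (∀ z, f z ≠ 0 ∧ eval (f z) F = 0) ∧ ∃ z w, ∀ c : ℂ, f z ≠ c • f w

/-- A system of `k + 1` linear forms, the coordinates of the linear map `ℓ`. -/
abbrev Forms (n k : ℕ) : Type := (Fin (n + 2) → ℂ) →ₗ[ℂ] (Fin (k + 1) → ℂ)

/-- The hyperplanes have no common point. -/
def NoCommonPoint {n k : ℕ} (ℓ : Forms n k) : Prop := ∀ x, ℓ x = 0 → x = 0

/-- Any `n + 2` of the linear forms are linearly independent. -/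
def GeneralPosition {n k : ℕ} (ℓ : Forms n k) : Prop :=
  ∀ I : Finset (Fin (k + 1)), I.card = n + 2 → ∀ x, (∀ i ∈ I, ℓ x i = 0) → x = 0

/-- `f` and `g` have the same intersections, with the same multiplicities, with the hyperplanes. -/
def SameSections {n k : ℕ} (ℓ : Forms n k) (f g : ℂ → Fin (n + 2) → ℂ) : Prop :=
  ∀ i z, analyticOrderAt (fun z => ℓ (f z) i) z = analyticOrderAt (fun z => ℓ (g z) i) z

/-- `f` and `g` give the same curve. -/
def SameCurve {n : ℕ} (f g : ℂ → Fin (n + 2) → ℂ) : Prop := ∀ z, ∃ c : ℂ, f z = c • g z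

/-- In the coordinates `ℓ i` the curve `f` is `g` multiplied by a constant invertible diagonal
matrix. -/
def DiagonallyEquivalent {n k : ℕ} (ℓ : Forms n k) (f g : ℂ → Fin (n + 2) → ℂ) : Prop :=
  ∃ D : Fin (k + 1) → ℂ, (∀ i, D i ≠ 0) ∧ ∀ z, ∃ c : ℂ, ∀ i, ℓ (f z) i = c * (D i * ℓ (g z) i)

/-- The curve `f` is not contained in a hyperplane. -/
def NotInHyperplane {n : ℕ} (f : ℂ → Fin (n + 2) → ℂ) : Prop :=
  ∀ a : Fin (n + 2) → ℂ, (∀ z, ∑ j, a j * f z j = 0) → a = 0

/-- The curves `g` and `f` have the same Zariski closure. -/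
def SameClosure {n : ℕ} (g f : ℂ → Fin (n + 2) → ℂ) : Prop :=
  ∀ H : MvPolynomial (Fin (n + 2)) ℂ, (∃ e, H.IsHomogeneous e) →
    ((∀ z, eval (g z) H = 0) ↔ ∀ z, eval (f z) H = 0)

/-- The entire curve `f` in `F = 0` is rigid with respect to the hyperplanes. -/
def Rigid {n k : ℕ} (F : MvPolynomial (Fin (n + 2)) ℂ) (ℓ : Forms n k)
    (f : ℂ → Fin (n + 2) → ℂ) : Prop :=
  (∃ M : ℕ, ∀ g : Fin (M + 1) → ℂ → Fin (n + 2) → ℂ, (∀ s, Curve F (g s)) →
    (∀ s, SameClosure (g s) f) → (∀ s, SameSections ℓ (g s) f) →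
    ∃ s t, s ≠ t ∧ SameCurve (g s) (g t)) ∧
  (∀ h : ℂ → ℂ, Differentiable ℂ h → (∃ z w, h z ≠ h w) → SameSections ℓ (fun z => f (h z)) f →
    ∃ a b : ℂ, (∃ m : ℕ, 0 < m ∧ a ^ m = 1) ∧ ∀ z, h z = a * z + b) ∧
  ∀ b, SameSections ℓ (fun z => f (z + b)) f →
    ∃ m : ℕ, 0 < m ∧ SameCurve (fun z => f (z + m * b)) f

/-- The homogeneous coordinates are of exponential type. -/
def ExponentialType {n : ℕ} (f : ℂ → Fin (n + 2) → ℂ) : Prop :=
  ∃ C : ℝ, ∀ z l, ‖f z l‖ ≤ Real.exp (C * (‖z‖ + 1))

/-- **General hypersurfaces.** -/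
theorem result (n d k : ℕ) (hd : 2 * n + 2 ≤ d) :
    ∃ (M : ℕ) (h : MvPolynomial (Index n d) ℤ) (h' : ℕ → MvPolynomial (Index n d) ℤ),
      h ≠ 0 ∧ (∀ r, h' r ≠ 0) ∧
      ∀ F : MvPolynomial (Fin (n + 2)) ℂ, F.IsHomogeneous d → valueAt h F ≠ 0 →
        Smooth F ∧ ∀ ℓ : Forms n k, NoCommonPoint ℓ →
          (∀ g : Fin (M + 1) → ℂ → Fin (n + 2) → ℂ, (∀ s, Curve F (g s)) →
            (∀ s t, SameSections ℓ (g s) (g t)) →
            ∃ s t, s ≠ t ∧ DiagonallyEquivalent ℓ (g s) (g t)) ∧
          (n + 2 ≤ k → GeneralPosition ℓ → ∀ g : Fin (M + 1) → ℂ → Fin (n + 2) → ℂ,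
            (∀ s, Curve F (g s)) → (∀ s, NotInHyperplane (g s)) →
            (∀ s t, SameSections ℓ (g s) (g t)) → ∃ s t, s ≠ t ∧ SameCurve (g s) (g t)) ∧
          ∀ f, Curve F f → Rigid F ℓ f ∧
            ((∀ r, valueAt (h' r) F ≠ 0) → ExponentialType f →
              ∀ b, SameSections ℓ (fun z => f (z + b)) f → b = 0) := by
  classical
  have hsum : 2 * (n + 1) + 1 ≤ ∑ i : Fin 1, (fun _ => d) i + (Finset.univ : Finset (Fin 1)).card := by
    simp
    omega
  obtain ⟨h1, h10, h1s⟩ := Pool.Agent.Q51.HG.gen_sparse (N := n + 1) (fun _ : Fin 1 => d)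
    Finset.univ hsum (k + 1)
  obtain ⟨h2, h20, h2s⟩ := Pool.Agent.Q51.HG.gen_smooth (N := n + 1) (fun _ : Fin 1 => d) 0
    (show 0 < d by omega)
  choose h3 h30 h3s using fun r : ℕ => Pool.Agent.Q51.HG.gen_sparse (N := n + 1)
    (fun _ : Fin 1 => d) Finset.univ hsum r
  obtain ⟨M, hM⟩ := Pool.Agent.Q72.GH.diag (fun _ : Fin 1 => d) k
  let e : Pool.Agent.TH182.VD.CI (n + 1) (fun _ : Fin 1 => d) → Index n d := fun x => ⟨x.2.1, x.2.2⟩
  have hinj : Function.Injective e := by
    rintro ⟨i, α, hα⟩ ⟨i', α', hα'⟩ hh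
    have hi : i = i' := Subsingleton.elim _ _
    subst hi
    have : α = α' := congrArg Subtype.val hh
    subst this
    rfl
  refine ⟨M, rename e (h1 * h2), fun r => rename e (h3 r), ?_, ?_, ?_⟩
  · intro h0
    exact mul_ne_zero h10 h20 (rename_injective e hinj (by rw [h0, map_zero]))
  · intro r h0
    have h0' : rename e (h3 r) = 0 := h0
    exact h30 r (rename_injective e hinj (by rw [h0', map_zero]))
  intro F hF hv
  have hval : ∀ h, valueAt (rename e h) F = Pool.Agent.Q51.HG.sp (fun _ : Fin 1 => d)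
      (fun _ : Fin 1 => F) h := by
    intro h
    unfold valueAt Pool.Agent.Q51.HG.sp
    rw [aeval_rename]
    rfl
  rw [hval, map_mul] at hv
  have hno : Pool.Agent.Q72.GH.NoSparse (fun _ : Fin 1 => F) Finset.univ (k + 1) :=
    h1s ℂ (fun _ => F) (fun _ => hF) (left_ne_zero_of_mul hv)
  have hcv : ∀ f, Curve F f → Pool.Agent.W603.BPR.EntireCurve
      (Ideal.span (Pool.Agent.Q72.GH.St (fun _ : Fin 1 => F) Finset.univ))
      (∏ _i ∈ (Finset.univ : Finset (Fin 1))ᶜ, F) f := by
    rintro f ⟨a1, a2, a3⟩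
    refine ⟨a1, fun z => ⟨(a2 z).1, fun H hH => ?_, ?_⟩, a3⟩
    · have h4 : Ideal.span (Pool.Agent.Q72.GH.St (fun _ : Fin 1 => F) Finset.univ) ≤
          RingHom.ker (eval (f z)) := by
        rw [Ideal.span_le]
        rintro G ⟨i, -, rfl⟩
        exact (a2 z).2
      exact h4 hH
    · rw [Finset.compl_univ, Finset.prod_empty, map_one]
      exact one_ne_zero
  have hvc : ∀ f, Pool.Agent.W603.BPR.EntireCurve
      (Ideal.span (Pool.Agent.Q72.GH.St (fun _ : Fin 1 => F) Finset.univ))
      (∏ _i ∈ (Finset.univ : Finset (Fin 1))ᶜ, F) f → Curve F f := by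
    rintro f ⟨a1, a2, a3⟩
    exact ⟨a1, fun z => ⟨(a2 z).1, (a2 z).2.1 F (Ideal.subset_span ⟨0, Finset.mem_univ _, rfl⟩)⟩,
      a3⟩
  refine ⟨?_, fun ℓ hℓ => ⟨?_, ?_, ?_⟩⟩
  · intro x hx _
    by_contra hcon
    push Not at hcon
    exact hx (h2s ℂ (fun _ => F) (fun _ => hF) (right_ne_zero_of_mul hv) x hcon)
  · intro g hg hs
    obtain ⟨s, t, hst, D, hD0, hD⟩ := hM (n + 1) (fun _ => F) Finset.univ ℓ (fun _ => hF) hℓ hno g
      (fun s => hcv _ (hg s)) fun s t i z => hs s t i z
    refine ⟨s, t, hst, D, hD0, fun z => ?_⟩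
    obtain ⟨c, hc⟩ := hD z
    exact ⟨c, fun i => congrFun hc i⟩
  · intro hk hG g hg hn hs
    obtain ⟨s, t, hst, h5⟩ := hM (n + 1) (fun _ => F) Finset.univ ℓ (fun _ => hF) hℓ hno g
      (fun s => hcv _ (hg s)) fun s t i z => hs s t i z
    exact ⟨s, t, hst, Pool.Agent.Q72.GH.eq_of_diag (N := n + 1) hk hG (hn t)
      (fun z => ((hg s).2.1 z).1) h5⟩
  · intro f hf
    obtain ⟨a1, a2, a3⟩ := Pool.Agent.Q72.GH.rig (F := fun _ : Fin 1 => F) (Z := Finset.univ)
      (fun _ => hF) hℓ hno (hcv f hf)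
    refine ⟨⟨?_, fun h hh hnc hs => a2 h hh hnc fun i z => hs i z,
      fun b hb => a3 b fun i z => hb i z⟩, fun hv' hE b hb => ?_⟩
    · obtain ⟨M', hM'⟩ := a1
      exact ⟨M', fun g hg hc hs => hM' g (fun s => hcv _ (hg s)) (fun s => hc s)
        fun s i z => hs s i z⟩
    · refine Pool.Agent.Q72.GH.exp_zero (F := fun _ : Fin 1 => F) (Z := Finset.univ)
        (fun _ => hF) hℓ (fun r => ?_) (hcv f hf) hE fun i z => hb i z
      have h6 := hv' r
      rw [hval] at h6
      exact h3s r ℂ (fun _ => F) (fun _ => hF) h6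

end Pool.Agent.Results.MP_b509a1_ag.SharedHyperplaneSections
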